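import Pool.Agent.Helper95.AF.Defs
import Pool.Agent.Helper82.AN.Eta
import Pool.Agent.Helper82.AN.Interp
import Pool.Agent.Helper82.AN.Lap

/-! # Project AF (MP_9ee088_an): block P3, moving the force at one time of one window

The interpolation `Helper82.AN.interp` at the point `(l, m)` gives coefficients `c` with `∑ |c i| ≤ 4`; the move is
`w + t v`, `v i = s / U 0 * c i / wt γ i`, so `∑ |v i| ≤ 4 s / |U 0| * exp ((p N) ^ γ) ≤ 1 / 5`. -/

set_option autoImplicit false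
open MeasureTheory Real Set Filter
open scoped ENNReal

namespace Pool.Agent.Helper99.AF

open Pool.Agent.Helper46.QP (Td)
open Pool.Agent.Helper82.AN (Ik Ow lawL wt bas eta Hw sq SepR interp eta_add law_shift wt_pos)
open Pool.Agent.Helper95.AF (frc un)

variable {d : ℕ}

/-- the coefficients of one move -/
theorem move99 {γ : ℝ} (hγ : 0 < γ) {u : ℝ} (hu : u ≠ 0) {α : Td d} {ρ s : ℝ}
    {n M N p : ℕ} {β : Fin M → Td d} (hρ : 0 < ρ) (hS : SepR α ρ n M β) (hN : 1 ≤ N) (hp : 1 ≤ p)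
    (hint : 2 * ((M * n : ℕ) : ℝ) ≤ (2 * N * ρ) ^ (2 * p)) (hs : 0 ≤ s)
    (hs1 : s ≤ |u| * Real.exp (-((p * N : ℝ) ^ γ)) / 20) (l : Fin M) (m : ℕ) (hm : m < n) :
    ∃ (S : Finset (Ik d)) (v : Ow d), (∀ i ∉ S, v i = 0) ∧ ∑ i ∈ S, |v i| ≤ 1 / 5 ∧
      ∀ (l' : Fin M) (j : ℕ), j < n → u * ∑ i ∈ S, wt γ i * v i * bas i (β l' + j • α) =
        if l' = l ∧ j = m then s else 0 := by
  classical
  have hcard : 2 * (Fintype.card (Fin M × Fin n) : ℝ) ≤ (2 * N * ρ) ^ (2 * p) := by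
    rw [Fintype.card_prod, Fintype.card_fin, Fintype.card_fin]
    exact hint
  obtain ⟨S, c, hc0, hcn, hcs, hc1, hc2⟩ := interp (x := fun y : Fin M × Fin n => β y.1 + (y.2 : ℕ) • α) hN hp hρ hS
    hcard (l, ⟨m, hm⟩)
  obtain ⟨E, hE⟩ : ∃ E : ℝ, E = Real.exp (-((p * N : ℝ) ^ γ)) := ⟨_, rfl⟩
  have hE0 : 0 < E := by rw [hE]; exact Real.exp_pos _
  rw [← hE] at hs1
  have hw : ∀ i ∈ S, E ≤ wt γ i := by
    intro i hi
    rw [hE]
    unfold wt
    apply Real.exp_le_exp.2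
    have := Real.rpow_le_rpow (norm_nonneg i.1) (hcn i hi) hγ.le
    linarith
  have hua : 0 < |u| := abs_pos.2 hu
  have hq : |s / u| ≤ E / 20 := by
    rw [abs_div, abs_of_nonneg hs, div_le_iff₀ hua]
    linarith
  have hval : ∀ (θ : Td d), u * ∑ i ∈ S, wt γ i * (s / u * c i / wt γ i) * bas i θ =
      s * ∑ i ∈ S, c i * bas i θ := by
    intro θ
    rw [Finset.mul_sum, Finset.mul_sum]
    refine Finset.sum_congr rfl fun i _ => ?_
    have h1 := (wt_pos γ i).ne'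
    field_simp
  refine ⟨S, fun i => s / u * c i / wt γ i, fun i hi => ?_, ?_, fun l' j hj => ?_⟩
  · show s / u * c i / wt γ i = 0
    rw [hc0 i hi, mul_zero, zero_div]
  · have h1 : ∀ i ∈ S, |s / u * c i / wt γ i| ≤ 1 / 20 * |c i| := by
      intro i hi
      have hwp := wt_pos γ i
      rw [abs_div, abs_mul, abs_of_pos hwp, div_le_iff₀ hwp]
      have h2 := hw i hi
      calc |s / u| * |c i| ≤ E / 20 * |c i| := mul_le_mul_of_nonneg_right hq (abs_nonneg _)
        _ = 1 / 20 * |c i| * E := by ring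
        _ ≤ 1 / 20 * |c i| * wt γ i := mul_le_mul_of_nonneg_left h2 (by positivity)
    refine (Finset.sum_le_sum h1).trans ?_
    rw [← Finset.mul_sum]
    linarith
  · show u * ∑ i ∈ S, wt γ i * (s / u * c i / wt γ i) * bas i (β l' + j • α) = _
    rw [hval]
    split_ifs with h
    · obtain ⟨rfl, rfl⟩ := h
      have h1 : ∑ i ∈ S, c i * bas i (β l' + j • α) = 1 := hc1
      rw [h1, mul_one]
    · have h1 : ∑ i ∈ S, c i * bas i (β l' + j • α) = 0 := by
        refine hc2 (l', ⟨j, hj⟩) fun h2 => h ?_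
        exact ⟨congrArg Prod.fst h2, congrArg (fun q : Fin M × Fin n => (q.2 : ℕ)) h2⟩
      rw [h1, mul_zero]

theorem un_prob99 : IsProbabilityMeasure un := by
  refine ⟨?_⟩
  unfold un
  rw [Measure.restrict_apply MeasurableSet.univ, univ_inter, Real.volume_Icc]
  simp

theorem un_ae99 : ∀ᵐ t ∂un, |t| ≤ 1 := by
  have h1 : ∀ᵐ t ∂un, t ∈ Icc (0 : ℝ) 1 := ae_restrict_mem measurableSet_Icc
  filter_upwards [h1] with t ht
  rw [abs_le]
  exact ⟨by linarith [ht.1], ht.2⟩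

/-- **P3**, one time -/
theorem shift1 {γ : ℝ} (hγ : 0 < γ) {k : ℕ} {e : Fin k → Td d → ℝ} {U : Fin (k + 1) → ℝ} (hU : U 0 ≠ 0) {α : Td d} {ρ s : ℝ}
    {n M N p : ℕ} {β : Fin M → Td d} (hρ : 0 < ρ) (hS : SepR α ρ n M β) (hN : 1 ≤ N) (hp : 1 ≤ p)
    (hint : 2 * ((M * n : ℕ) : ℝ) ≤ (2 * N * ρ) ^ (2 * p)) (hs : 0 ≤ s)
    (hs1 : s ≤ |U 0| * Real.exp (-((p * N : ℝ) ^ γ)) / 20) (l : Fin M) (m : ℕ) (hm : m < n) :
    ∃ S : Ow d → ℝ → Ow d, (Measurable fun q : Ow d × ℝ => S q.1 q.2) ∧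
      (∀ G : Ow d → ℝ≥0∞, Measurable G →
        ∫⁻ w, G w ∂lawL d ≤ ENNReal.ofReal (Real.exp 1) * ∫⁻ w, ∫⁻ t, G (S w t) ∂un ∂lawL d) ∧
      ∀ w, Hw γ w ≠ ∞ → ∀ t,
        (∀ j < n, sq α (frc γ e U (S w t)) (β l) j =
          Function.update (sq α (frc γ e U w) (β l)) m (sq α (frc γ e U w) (β l) m + s * t) j) ∧
        ∀ l', l' ≠ l → ∀ j < n, sq α (frc γ e U (S w t)) (β l') j = sq α (frc γ e U w) (β l') j := by
  classical
  obtain ⟨T, v, hv0, hv1, hv2⟩ := move99 hγ hU hρ hS hN hp hint hs hs1 l m hm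
  have hprob := un_prob99
  have hlaw : IsProbabilityMeasure (lawL d) := by
    have h1 : IsProbabilityMeasure Pool.Agent.Helper82.AN.lap := inferInstance
    unfold lawL
    infer_instance
  have hm1 : Measurable fun q : Ow d × ℝ => q.1 + q.2 • v := by
    rw [measurable_pi_iff]
    intro i
    simp only [Pi.add_apply, Pi.smul_apply, smul_eq_mul]
    fun_prop
  have hchg : ∀ w, Hw γ w ≠ ∞ → ∀ t (l' : Fin M), ∀ j < n, sq α (frc γ e U (w + t • v)) (β l') j =
      sq α (frc γ e U w) (β l') j + t * if l' = l ∧ j = m then s else 0 := by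
    intro w hw t l' j hj
    have h1 : ∀ i ∉ T, (t • v) i = 0 := fun i hi => by
      rw [Pi.smul_apply, hv0 i hi, smul_zero]
    have h2 := eta_add hw h1 (β l' + j • α)
    rw [← hv2 l' j hj]
    unfold Pool.Agent.Helper82.AN.sq frc
    rw [h2, Finset.mul_sum, Finset.mul_sum, mul_add, Finset.mul_sum, add_assoc]
    congr 2
    refine Finset.sum_congr rfl fun i _ => ?_
    rw [Pi.smul_apply, smul_eq_mul]
    ring
  refine ⟨fun w t => w + t • v, hm1, fun G hG => ?_, fun w hw t => ⟨fun j hj => ?_, fun l' hl j hj => ?_⟩⟩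
  · have hm2 : Measurable fun q : Ow d × ℝ => G (q.1 + q.2 • v) := hG.comp hm1
    have key : ∀ t : ℝ, |t| ≤ 1 →
        ∫⁻ w, G w ∂lawL d ≤ ENNReal.ofReal (Real.exp 1) * ∫⁻ w, G (w + t • v) ∂lawL d := by
      intro t ht
      have h1 : ∀ i ∉ T, (t • v) i = 0 := fun i hi => by
        rw [Pi.smul_apply, hv0 i hi, smul_zero]
      refine (law_shift h1 hG).trans (mul_le_mul_left (ENNReal.ofReal_le_ofReal (Real.exp_le_exp.2 ?_)) _)
      have h3 : ∑ i ∈ T, |(t • v) i| ≤ ∑ i ∈ T, |v i| := by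
        refine Finset.sum_le_sum fun i _ => ?_
        rw [Pi.smul_apply, smul_eq_mul, abs_mul]
        exact mul_le_of_le_one_left (abs_nonneg _) ht
      linarith
    calc ∫⁻ w, G w ∂lawL d = ∫⁻ _t : ℝ, (∫⁻ w, G w ∂lawL d) ∂un := by
          rw [lintegral_const, measure_univ, mul_one]
      _ ≤ ∫⁻ t : ℝ, ENNReal.ofReal (Real.exp 1) * ∫⁻ w, G (w + t • v) ∂lawL d ∂un := by
          refine lintegral_mono_ae ?_
          filter_upwards [un_ae99] with t ht
          exact key t ht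
      _ = ENNReal.ofReal (Real.exp 1) * ∫⁻ t : ℝ, ∫⁻ w, G (w + t • v) ∂lawL d ∂un :=
          lintegral_const_mul' _ _ ENNReal.ofReal_ne_top
      _ = _ := by
          congr 1
          exact (lintegral_lintegral_swap (f := fun w t => G (w + t • v)) hm2.aemeasurable).symm
  · show sq α (frc γ e U (w + t • v)) (β l) j = _
    rw [hchg w hw t l j hj]
    by_cases h : j = m
    · subst h
      rw [if_pos ⟨rfl, rfl⟩, Function.update_self, mul_comm]
    · rw [if_neg fun h1 => h h1.2, Function.update_of_ne h, mul_zero, add_zero]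
  · show sq α (frc γ e U (w + t • v)) (β l') j = _
    rw [hchg w hw t l' j hj, if_neg fun h1 => hl h1.1, mul_zero, add_zero]

end Pool.Agent.Helper99.AF
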